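import Pool.Agent.helper20.HP.S0

/-!
Module B1 : range cuts (last intersection argument).
-/

open scoped BigOperators Topology
open Filter MeasureTheory

namespace Pool.Agent.helper20.HP

variable {V : Type} [Fintype V] [DecidableEq V] {K : HW V} {θ : ℝ} {h : ℕ}

/-! ### Take and drop -/

theorem B1_split (i r : ℕ) (x : V) (F : List V → List V → ℝ) :
    W K (i + r) x (fun l => F (l.take i) (l.drop i)) =
      W K i x (fun l1 => W K r (lst x l1) (fun l2 => F l1 l2)) := by
  rw [W_split]
  refine W_congr K _ _ fun l1 h1 => W_congr K _ _ fun l2 _ => ?_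
  rw [← h1, List.take_left, List.drop_left]

theorem B1_take (T r : ℕ) (x : V) (f : List V → ℝ) :
    W K (T + r) x (fun l => f (l.take T)) = W K T x f := by
  rw [B1_split T r x (fun a _ => f a)]
  refine W_congr K _ _ fun l1 _ => ?_
  rw [W_const]

theorem B1_take' {S S' : ℕ} (hS : S ≤ S') (x : V) (f : List V → ℝ) :
    W K S' x (fun l => f (l.take S)) = W K S x f := by
  obtain ⟨r, rfl⟩ := Nat.exists_eq_add_of_le hS
  exact B1_take S r x f

/-! ### Invariance and monotonicity -/

theorem Rc_inv (S T : ℕ) (x y : V) : Rc K S T x = Rc K S T y := by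
  obtain ⟨σ, hσ, rfl⟩ := K.homog x y
  unfold Rc
  rw [W_map K σ hσ]
  refine W_congr K _ _ fun l _ => ?_
  rw [W_map K σ hσ]
  refine W_congr K _ _ fun l' _ => ?_
  refine ind_congr ?_
  rw [← List.map_cons, List.forall_mem_map]
  simp only [List.mem_map_of_injective σ.injective]

theorem Rc_anti {S S' T T' : ℕ} (hS : S ≤ S') (hT : T ≤ T') (x : V) :
    Rc K S' T' x ≤ Rc K S T x := by
  have h1 : Rc K S T x = W K S' x (fun l => W K T' x
      (fun l' => ind (∀ y ∈ l.take S, y ∉ x :: l'.take T))) := by
    unfold Rc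
    rw [← B1_take' hS]
    refine W_congr K _ _ fun l _ => ?_
    exact (B1_take' hT x (fun l' => ind (∀ y ∈ l.take S, y ∉ x :: l'))).symm
  rw [h1]
  unfold Rc
  refine W_mono K _ _ fun l _ => W_mono K _ _ fun l' _ => ind_mono ?_
  intro h2 y hy hy'
  refine h2 y (List.mem_of_mem_take hy) ?_
  rcases List.mem_cons.mp hy' with h3 | h3
  · exact List.mem_cons.mpr (Or.inl h3)
  · exact List.mem_cons.mpr (Or.inr (List.mem_of_mem_take h3))

/-! ### The pointwise inequality -/

omit [Fintype V] [DecidableEq V] in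
theorem B1_lst_take_mem (x : V) (l : List V) (i : ℕ) : lst x (l.take i) ∈ x :: l := by
  unfold lst
  rcases List.eq_nil_or_concat (l.take i) with h1 | ⟨a, b, h1⟩
  · rw [h1]; simp
  · rw [h1]
    have : b ∈ l.take i := by rw [h1]; simp
    simpa using Or.inr (List.mem_of_mem_take this)

omit [Fintype V] [DecidableEq V] in
theorem B1_lst_take_succ (x : V) (l : List V) (k : ℕ) (hk : k < l.length) :
    lst x (l.take (k + 1)) = l[k] := by
  unfold lst
  rw [List.take_succ_eq_append_getElem hk]
  exact List.getLastD_concat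

omit [Fintype V] [DecidableEq V] in
theorem B1_mem_iff (x : V) (l : List V) (y : V) :
    y ∈ x :: l ↔ ∃ j ≤ l.length, lst x (l.take j) = y := by
  constructor
  · intro hy
    rcases List.mem_cons.mp hy with h1 | h1
    · exact ⟨0, Nat.zero_le _, by simp [lst, h1]⟩
    · obtain ⟨k, hk, rfl⟩ := List.getElem_of_mem h1
      exact ⟨k + 1, hk, B1_lst_take_succ x l k hk⟩
  · rintro ⟨j, _, rfl⟩
    exact B1_lst_take_mem x l j

omit [Fintype V] [DecidableEq V] in
theorem B1_last (x : V) (l l' : List V) : ∃ i ≤ l.length, ∃ j ≤ l'.length,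
    lst x (l.take i) = lst x (l'.take j) ∧ ∀ k, i < k → k ≤ l.length →
      lst x (l.take k) ∉ x :: l' := by
  classical
  have hne : ((Finset.range (l.length + 1)).filter
      (fun i => lst x (l.take i) ∈ x :: l')).Nonempty :=
    ⟨0, by simp [lst]⟩
  obtain ⟨i, hi, hmax⟩ := Finset.exists_max_image _ (fun i : ℕ => i) hne
  rw [Finset.mem_filter, Finset.mem_range] at hi
  obtain ⟨j, hj, hj'⟩ := (B1_mem_iff x l' _).mp hi.2
  refine ⟨i, by omega, j, hj, hj'.symm, fun k hk hk' hmem => ?_⟩
  have := hmax k (by rw [Finset.mem_filter, Finset.mem_range]; exact ⟨by omega, hmem⟩)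
  omega

/-- The indicator of an intersection at `(i, j)` after which the next pieces avoid each other. -/
noncomputable def B1_good (T : ℕ) (x : V) (i j : ℕ) (l l' : List V) : ℝ :=
  ind (lst x (l.take i) = lst x (l'.take j)) *
    ind (∀ y ∈ (l.drop i).take T, y ∉ lst x (l'.take j) :: (l'.drop j).take T)

omit [Fintype V] [DecidableEq V] in
theorem B1_pointwise (T : ℕ) (x : V) (l l' : List V) (hl : l.length = T + h)
    (hl' : l'.length = T + h) :
    1 ≤ (∑ i ∈ Finset.range (h + 1), ∑ j ∈ Finset.range (h + 1), B1_good T x i j l l') +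
      ∑ i ∈ Finset.range (T + h + 1), ∑ j ∈ Finset.range (T + h + 1),
        ind (h < i + j) * ind (lst x (l.take i) = lst x (l'.take j)) := by
  obtain ⟨i, hi, j, hj, hij, hlast⟩ := B1_last x l l'
  have h0 : ∀ i j, 0 ≤ B1_good T x i j l l' := fun i j =>
    mul_nonneg (ind_nonneg _) (ind_nonneg _)
  have h0' : ∀ i j : ℕ, 0 ≤ ind (h < i + j) * ind (lst x (l.take i) = lst x (l'.take j)) :=
    fun i j => mul_nonneg (ind_nonneg _) (ind_nonneg _)
  have hA : 0 ≤ ∑ i ∈ Finset.range (h + 1), ∑ j ∈ Finset.range (h + 1), B1_good T x i j l l' :=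
    Finset.sum_nonneg fun i _ => Finset.sum_nonneg fun j _ => h0 i j
  have hB : 0 ≤ ∑ i ∈ Finset.range (T + h + 1), ∑ j ∈ Finset.range (T + h + 1),
      ind (h < i + j) * ind (lst x (l.take i) = lst x (l'.take j)) :=
    Finset.sum_nonneg fun i _ => Finset.sum_nonneg fun j _ => h0' i j
  by_cases hc : h < i + j
  · have h1 : ind (h < i + j) * ind (lst x (l.take i) = lst x (l'.take j)) = 1 := by
      rw [ind_true hc, ind_true hij, one_mul]
    have h2 : ind (h < i + j) * ind (lst x (l.take i) = lst x (l'.take j)) ≤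
        ∑ j ∈ Finset.range (T + h + 1),
          ind (h < i + j) * ind (lst x (l.take i) = lst x (l'.take j)) :=
      Finset.single_le_sum (f := fun j : ℕ =>
        ind (h < i + j) * ind (lst x (l.take i) = lst x (l'.take j))) (fun j _ => h0' i j)
        (Finset.mem_range.mpr (by omega))
    have h3 : ∑ j ∈ Finset.range (T + h + 1),
          ind (h < i + j) * ind (lst x (l.take i) = lst x (l'.take j)) ≤
        ∑ i ∈ Finset.range (T + h + 1), ∑ j ∈ Finset.range (T + h + 1),
          ind (h < i + j) * ind (lst x (l.take i) = lst x (l'.take j)) :=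
      Finset.single_le_sum (f := fun i : ℕ => ∑ j ∈ Finset.range (T + h + 1),
        ind (h < i + j) * ind (lst x (l.take i) = lst x (l'.take j)))
        (fun i _ => Finset.sum_nonneg fun j _ => h0' i j) (Finset.mem_range.mpr (by omega))
    linarith
  · have hgood : B1_good T x i j l l' = 1 := by
      unfold B1_good
      rw [ind_true hij, one_mul, ind_true]
      intro y hy hy'
      obtain ⟨k, hk, rfl⟩ := List.getElem_of_mem hy
      rw [List.length_take, List.length_drop] at hk
      have hk1 : i + k < l.length := by omega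
      have e1 : ((l.drop i).take T)[k]'(by rw [List.length_take, List.length_drop]; exact hk) =
          lst x (l.take (i + k + 1)) := by
        rw [B1_lst_take_succ x l (i + k) hk1]
        simp
      rw [e1] at hy'
      refine hlast (i + k + 1) (by omega) (by omega) ?_
      rcases List.mem_cons.mp hy' with h4 | h4
      · rw [h4]; exact B1_lst_take_mem x l' j
      · exact List.mem_cons.mpr (Or.inr (List.mem_of_mem_drop (List.mem_of_mem_take h4)))
    have h2 : B1_good T x i j l l' ≤ ∑ j ∈ Finset.range (h + 1), B1_good T x i j l l' :=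
      Finset.single_le_sum (f := fun j : ℕ => B1_good T x i j l l') (fun j _ => h0 i j)
        (Finset.mem_range.mpr (by omega))
    have h3 : ∑ j ∈ Finset.range (h + 1), B1_good T x i j l l' ≤
        ∑ i ∈ Finset.range (h + 1), ∑ j ∈ Finset.range (h + 1), B1_good T x i j l l' :=
      Finset.single_le_sum (f := fun i : ℕ => ∑ j ∈ Finset.range (h + 1), B1_good T x i j l l')
        (fun i _ => Finset.sum_nonneg fun j _ => h0 i j) (Finset.mem_range.mpr (by omega))
    linarith

/-! ### The two expectations -/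

theorem B1_meet (i j r s : ℕ) (x : V) :
    W K (i + r) x (fun l => W K (j + s) x (fun l' =>
      ind (lst x (l.take i) = lst x (l'.take j)))) = cc K (i + j) := by
  have h1 : ∀ z : V, W K (j + s) x (fun l' => ind (z = lst x (l'.take j))) = K.pt j x z := by
    intro z
    rw [B1_take j s x (fun l' => ind (z = lst x l')), ← W_ind_lst]
    exact W_congr K _ _ fun l _ => ind_congr eq_comm
  simp_rw [h1]
  rw [B1_take i r x (fun l => K.pt j x (lst x l)), W_lst, ← cc_eq K (i + j) x, pt_add]
  refine Finset.sum_congr rfl fun y _ => ?_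
  rw [pt_symm K j x y]

theorem B1_good_exp (T i j r s : ℕ) (x : V) :
    W K (i + (T + r)) x (fun l => W K (j + (T + s)) x (fun l' => B1_good T x i j l l')) =
      cc K (i + j) * Rc K T T x := by
  have h1 : ∀ (z : V) (m : List V),
      W K (j + (T + s)) x (fun l' => ind (z = lst x (l'.take j)) *
        ind (∀ y ∈ m, y ∉ lst x (l'.take j) :: (l'.drop j).take T)) =
      K.pt j x z * W K T z (fun l' => ind (∀ y ∈ m, y ∉ z :: l')) := by
    intro z m
    rw [B1_split j (T + s) x (fun a b => ind (z = lst x a) *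
      ind (∀ y ∈ m, y ∉ lst x a :: b.take T))]
    have e1 : ∀ a : List V, W K (T + s) (lst x a) (fun b => ind (z = lst x a) *
        ind (∀ y ∈ m, y ∉ lst x a :: b.take T)) =
        ind (lst x a = z) * W K T z (fun l' => ind (∀ y ∈ m, y ∉ z :: l')) := by
      intro a
      rw [W_mul_left, B1_take T s (lst x a) (fun b => ind (∀ y ∈ m, y ∉ lst x a :: b))]
      by_cases hz : z = lst x a
      · rw [← hz, ind_true rfl]
      · rw [ind_false hz, ind_false (fun h => hz h.symm), zero_mul, zero_mul]
    simp_rw [e1]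
    rw [W_mul_right, W_ind_lst]
  have h2 : ∀ l : List V, W K (j + (T + s)) x (fun l' => B1_good T x i j l l') =
      K.pt j x (lst x (l.take i)) * W K T (lst x (l.take i))
        (fun l' => ind (∀ y ∈ (l.drop i).take T, y ∉ lst x (l.take i) :: l')) := fun l =>
    h1 (lst x (l.take i)) ((l.drop i).take T)
  simp_rw [h2]
  rw [B1_split i (T + r) x (fun a b => K.pt j x (lst x a) * W K T (lst x a)
    (fun l' => ind (∀ y ∈ b.take T, y ∉ lst x a :: l')))]
  have h3 : ∀ a : List V, W K (T + r) (lst x a) (fun b => K.pt j x (lst x a) * W K T (lst x a)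
      (fun l' => ind (∀ y ∈ b.take T, y ∉ lst x a :: l'))) =
      K.pt j x (lst x a) * Rc K T T x := by
    intro a
    rw [W_mul_left, B1_take T r (lst x a) (fun b => W K T (lst x a)
      (fun l' => ind (∀ y ∈ b, y ∉ lst x a :: l')))]
    have : Rc K T T (lst x a) = Rc K T T x := Rc_inv T T _ _
    rw [← this]
    rfl
  simp_rw [h3]
  rw [W_mul_right, W_lst K i x (fun z => K.pt j x z), ← cc_eq K (i + j) x, pt_add]
  congr 1
  refine Finset.sum_congr rfl fun y _ => ?_
  rw [pt_symm K j x y]

theorem B1_main (hP : Par K θ h) (T : ℕ) (x : V)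
    (hT : 4 * T ≤ Nat.sqrt (Fintype.card V)) : 1 / (2 * θ) ≤ Rc K T T x := by
  set n := Fintype.card V with hn
  set L := Nat.sqrt n with hL
  have hh := hP.h_pos
  have hh2 := hP.h_le
  rw [← hn, ← hL] at hh2
  have hθ := hP.one_le
  have hnpos : 0 < n := hP.card_pos
  have hnR : (0 : ℝ) < n := by exact_mod_cast hnpos
  have hRc : 0 ≤ Rc K T T x := W_nonneg K _ _ fun l _ => W_nonneg K _ _ fun l' _ => ind_nonneg _
  -- the main inequality
  have h1 : (1 : ℝ) ≤ W K (T + h) x (fun l => W K (T + h) x (fun l' =>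
      (∑ i ∈ Finset.range (h + 1), ∑ j ∈ Finset.range (h + 1), B1_good T x i j l l') +
      ∑ i ∈ Finset.range (T + h + 1), ∑ j ∈ Finset.range (T + h + 1),
        ind (h < i + j) * ind (lst x (l.take i) = lst x (l'.take j)))) := by
    calc (1 : ℝ) = W K (T + h) x (fun _ => W K (T + h) x (fun _ => (1 : ℝ))) := by
          simp only [W_const]
      _ ≤ _ := W_mono K _ _ fun l hl => W_mono K _ _ fun l' hl' => B1_pointwise T x l l' hl hl'
  have h2 : W K (T + h) x (fun l => W K (T + h) x (fun l' =>
      (∑ i ∈ Finset.range (h + 1), ∑ j ∈ Finset.range (h + 1), B1_good T x i j l l') +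
      ∑ i ∈ Finset.range (T + h + 1), ∑ j ∈ Finset.range (T + h + 1),
        ind (h < i + j) * ind (lst x (l.take i) = lst x (l'.take j)))) =
      (∑ i ∈ Finset.range (h + 1), ∑ j ∈ Finset.range (h + 1),
        W K (T + h) x (fun l => W K (T + h) x (fun l' => B1_good T x i j l l'))) +
      ∑ i ∈ Finset.range (T + h + 1), ∑ j ∈ Finset.range (T + h + 1),
        ind (h < i + j) * W K (T + h) x (fun l => W K (T + h) x (fun l' =>
          ind (lst x (l.take i) = lst x (l'.take j)))) := by
    simp only [W_add, W_sum, W_mul_left]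
  rw [h2] at h1
  have h3 : ∀ i ∈ Finset.range (h + 1), ∀ j ∈ Finset.range (h + 1),
      W K (T + h) x (fun l => W K (T + h) x (fun l' => B1_good T x i j l l')) =
        cc K (i + j) * Rc K T T x := by
    intro i hi j hj
    rw [Finset.mem_range] at hi hj
    have e1 : T + h = i + (T + (h - i)) := by omega
    have e2 : T + h = j + (T + (h - j)) := by omega
    have e3 := B1_good_exp (K := K) T i j (h - i) (h - j) x
    rw [← e1, ← e2] at e3
    exact e3
  have h4 : ∀ i ∈ Finset.range (T + h + 1), ∀ j ∈ Finset.range (T + h + 1),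
      ind (h < i + j) * W K (T + h) x (fun l => W K (T + h) x (fun l' =>
          ind (lst x (l.take i) = lst x (l'.take j)))) ≤ 3 / (2 * (n : ℝ)) := by
    intro i hi j hj
    rw [Finset.mem_range] at hi hj
    have e1 : T + h = i + (T + h - i) := by omega
    have e2 : T + h = j + (T + h - j) := by omega
    have e3 := B1_meet (K := K) i j (T + h - i) (T + h - j) x
    rw [← e1, ← e2] at e3
    rw [e3]
    by_cases hc : h < i + j
    · rw [ind_true hc, one_mul]
      exact cc_mix hP hc.le
    · rw [ind_false hc, zero_mul]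
      positivity
  rw [Finset.sum_congr rfl fun i hi => Finset.sum_congr rfl fun j hj => h3 i hi j hj] at h1
  have h5 : ∑ i ∈ Finset.range (h + 1), ∑ j ∈ Finset.range (h + 1), cc K (i + j) * Rc K T T x ≤
      θ * Rc K T T x := by
    simp_rw [← Finset.sum_mul]
    refine mul_le_mul_of_nonneg_right (cc_double_le hP ?_) hRc
    rw [← hn, ← hL]
    omega
  have h6 : ∑ i ∈ Finset.range (T + h + 1), ∑ j ∈ Finset.range (T + h + 1),
        ind (h < i + j) * W K (T + h) x (fun l => W K (T + h) x (fun l' =>
          ind (lst x (l.take i) = lst x (l'.take j)))) ≤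
      ((T : ℝ) + h + 1) * (((T : ℝ) + h + 1) * (3 / (2 * (n : ℝ)))) := by
    calc _ ≤ ∑ i ∈ Finset.range (T + h + 1), ∑ j ∈ Finset.range (T + h + 1),
          (3 / (2 * (n : ℝ))) := Finset.sum_le_sum fun i hi => Finset.sum_le_sum fun j hj =>
            h4 i hi j hj
      _ = _ := by
          simp only [Finset.sum_const, Finset.card_range, nsmul_eq_mul]
          push_cast
          ring
  have h7 : ((T : ℝ) + h + 1) * (((T : ℝ) + h + 1) * (3 / (2 * (n : ℝ)))) ≤ 1 / 2 := by
    have e1 : 8 * (T + h + 1) ≤ 3 * L := by omega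
    have e2 : L * L ≤ n := Nat.sqrt_le n
    have e3 : (8 * ((T : ℝ) + h + 1)) ≤ 3 * L := by exact_mod_cast e1
    have e4 : (L : ℝ) * L ≤ n := by exact_mod_cast e2
    have e5 : (8 * ((T : ℝ) + h + 1)) * (8 * ((T : ℝ) + h + 1)) ≤ (3 * L) * (3 * L) :=
      mul_le_mul e3 e3 (by positivity) (by positivity)
    have e6 : ((T : ℝ) + h + 1) * (((T : ℝ) + h + 1) * (3 / (2 * (n : ℝ)))) =
        (((T : ℝ) + h + 1) * ((T : ℝ) + h + 1) * 3) / (2 * n) := by ring
    rw [e6, div_le_iff₀ (by positivity)]
    nlinarith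
  have h8 : 1 ≤ θ * Rc K T T x + 1 / 2 := by linarith
  have h9 : 0 < θ := by linarith
  rw [div_le_iff₀ (by positivity)]
  nlinarith

theorem Rc_lower (hP : Par K θ h) (S T : ℕ) (x : V) (hS : 4 * S ≤ Nat.sqrt (Fintype.card V))
    (hT : 4 * T ≤ Nat.sqrt (Fintype.card V)) : 1 / (2 * θ) ≤ Rc K S T x := by
  refine (B1_main hP (max S T) x ?_).trans (Rc_anti (le_max_left _ _) (le_max_right _ _) x)
  rcases max_choice S T with h1 | h1 <;> rw [h1] <;> assumption

end Pool.Agent.helper20.HP
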